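import Pool.Agent.W982.CP.Fm
import Pool.Agent.H243R3.PCP.ApxMain

/-!
CP-PTAS: a minimization problem with a polynomial-time gap reduction from MAX-3SAT-B is APX-hard
under PTAS-reductions.
-/

namespace Pool.Agent.W253.CPP

open Pool.Agent.NPC Pool.Agent.NPC.DP Pool.Agent.H243R3.PCP Pool.Agent.W982.CP Pool.Agent.NPC.TP

open H243R3.TP (OptProblem InAPX PolyFn max3Sat Clause occ ClauseSat LitTrue lits)

/-! ### Repeated thresholds -/

/-- the threshold `i` repeated `L ^ (k - i)` times -/
def js (L k : ℕ) : List ℕ := (List.range k).flatMap fun i => List.replicate (L ^ (k - i)) i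

theorem sum_getD (g : ℕ → ℕ) (l : List ℕ) :
    ∑ j ∈ Finset.range l.length, g (l.getD j 0) = (l.map g).sum := by
  induction l with
  | nil => simp
  | cons a l ih =>
    rw [List.length_cons, Finset.sum_range_succ', List.map_cons, List.sum_cons, ← ih, add_comm]
    simp

theorem sum_js (L k : ℕ) (g : ℕ → ℕ) : ∑ j ∈ Finset.range (js L k).length,
    g ((js L k).getD j 0) = ∑ i ∈ Finset.range k, L ^ (k - i) * g i := by
  rw [sum_getD]
  unfold js
  rw [List.map_flatMap, List.flatMap_def, List.sum_flatten, List.map_map, sum_range_list]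
  refine Finset.sum_congr rfl fun i _ => ?_
  simp

theorem js_lt {L k j : ℕ} (hj : j < (js L k).length) : (js L k).getD j 0 < k := by
  rw [List.getD_eq_getElem _ _ hj]
  have h := List.getElem_mem hj
  have h2 : ∀ x ∈ js L k, x < k := by
    intro x hx
    unfold js at hx
    rw [List.mem_flatMap] at hx
    obtain ⟨i, hi, hx⟩ := hx
    rw [List.eq_of_mem_replicate hx]
    exact List.mem_range.1 hi
  exact h2 _ h

theorem one_le_js {L k : ℕ} (hL : 1 ≤ L) (hk : 1 ≤ k) : 1 ≤ (js L k).length := by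
  have h := sum_js L k (fun _ => 1)
  rw [Finset.sum_const, Finset.card_range, smul_eq_mul, mul_one] at h
  rw [h]
  have h1 := Finset.single_le_sum (f := fun i => L ^ (k - i) * 1) (fun _ _ => Nat.zero_le _)
    (Finset.mem_range.2 (show 0 < k from hk))
  refine le_trans ?_ h1
  rw [mul_one]
  exact Nat.one_le_pow _ _ hL

theorem geom (M a : ℕ) : ∀ k, a < k →
    M * (∑ i ∈ Finset.range k, (M + 1) ^ (k - i) * (if i ≤ a then 0 else 1)) + (M + 1) ≤
      (M + 1) ^ (k - a) := by
  intro k hk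
  induction k, hk using Nat.le_induction with
  | base =>
    rw [Finset.sum_eq_zero, mul_zero, zero_add]
    · simp
    · intro i hi
      rw [if_pos (Nat.lt_succ_iff.1 (Finset.mem_range.1 hi)), mul_zero]
  | succ k hk ih =>
    have h1 : ∑ i ∈ Finset.range (k + 1), (M + 1) ^ (k + 1 - i) * (if i ≤ a then 0 else 1) =
        (M + 1) * (∑ i ∈ Finset.range k, (M + 1) ^ (k - i) * (if i ≤ a then 0 else 1)) +
          (M + 1) := by
      rw [Finset.sum_range_succ, if_neg (by omega), Nat.add_sub_cancel_left, pow_one, mul_one,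
        Finset.mul_sum]
      congr 1
      refine Finset.sum_congr rfl fun i hi => ?_
      rw [Finset.mem_range] at hi
      rw [Nat.succ_sub hi.le, pow_succ]
      ring
    have h2 : (M + 1) ^ (k + 1 - a) = (M + 1) ^ (k - a) * (M + 1) := by
      rw [Nat.succ_sub (by omega), pow_succ]
    rw [h1, h2]
    have h3 := Nat.mul_le_mul_right (M + 1) ih
    refine le_trans (le_of_eq ?_) h3
    ring

/-! ### Assembling assignments -/

theorem assemble (B : List (ℕ × List Clause)) (As : ℕ → List ℕ) :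
    ∃ A', unsat (dj B) A' = (B.map fun b => unsat b.2 (As b.1)).sum := by
  set n := B.length with hn
  refine ⟨B.zipIdx.flatMap fun bj => (As bj.1.1).map fun v => v * n + bj.2, ?_⟩
  rw [unsat_dj]
  have h : (B.zipIdx.map fun bj => unsat bj.1.2 (As bj.1.1)) =
      B.map fun b => unsat b.2 (As b.1) := by
    conv_rhs => rw [← List.zipIdx_map_fst 0 B, List.map_map]
    rfl
  rw [← h]
  congr 1
  refine List.map_congr_left ?_
  rintro ⟨b, j⟩ hbj
  obtain ⟨hj, hb⟩ := zipIdx_lt hbj
  rw [← hn] at hj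
  simp only
  have key : ∀ v, v ∈ rs B.length j (B.zipIdx.flatMap fun bj =>
      (As bj.1.1).map fun v => v * n + bj.2) ↔ v ∈ As b.1 := by
    intro v
    rw [← hn, mem_rs hj, List.mem_flatMap]
    constructor
    · rintro ⟨⟨b', j'⟩, hbj', h1⟩
      rw [List.mem_map] at h1
      obtain ⟨u, hu, h1⟩ := h1
      obtain ⟨hj', hb'⟩ := zipIdx_lt hbj'
      rw [← hn] at hj'
      simp only at h1 hu
      have e1 : ∀ v j, j < n → (v * n + j) % n = j := by
        intro v j hj; rw [mul_comm, Nat.mul_add_mod, Nat.mod_eq_of_lt hj]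
      have e2 : ∀ v j, j < n → (v * n + j) / n = v := by
        intro v j hj; rw [mul_comm, Nat.mul_add_div (by omega), Nat.div_eq_of_lt hj, add_zero]
      have h2 : j' = j := by rw [← e1 u j' hj', h1, e1 v j hj]
      have h3 : u = v := by rw [← e2 u j' hj', h1, e2 v j hj]
      subst h2 h3
      rw [hb] at hb'
      rw [Option.some.inj hb']
      exact hu
    · intro hv
      exact ⟨(b, j), hbj, List.mem_map.2 ⟨v, hv, rfl⟩⟩
  have := unsat_map_congr b.2 (fun c => c) (fun c => c)
    (rs B.length j (B.zipIdx.flatMap fun bj => (As bj.1.1).map fun v => v * n + bj.2))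
    (As b.1) (by
      intro c hc
      rw [clauseSat_iff, clauseSat_iff]
      unfold LitTrue
      rw [key, key, key])
  rw [List.map_id'] at this
  exact this

/-- **The gap.** -/
theorem gap {k M a : ℕ} (ha : a < k) {F : ℕ → List Clause} (hF : ∀ i, F i ≠ [])
    (hsat : ∀ i ≤ a, ∃ A, unsat (F i) A = 0) (K : ℕ) {B : List (ℕ × List Clause)}
    (hB : B = cps (js (M + 1) k).length (fun j => F ((js (M + 1) k).getD j 0))) :
    ∃ T : ℕ, 1 ≤ T ∧ (dj B).length ≤ (js (M + 1) k).length * T ∧
      (∃ A', M * unsat (dj B) A' ≤ T * (M + 1) ^ (k - a)) ∧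
      ∀ A, (∀ bj ∈ B.zipIdx, (js (M + 1) k).getD bj.1.1 0 = a →
        (F a).length ≤ K * unsat bj.1.2 (rs B.length bj.2 A)) →
        T * (M + 1) ^ (k - a) ≤ 2 * (K * unsat (dj B) A) := by
  classical
  subst hB
  set k' := (js (M + 1) k).length with hk'
  set F' : ℕ → List Clause := fun j => F ((js (M + 1) k).getD j 0) with hF'
  set T := tot k' F' with hT
  have hk1 : 1 ≤ k' := one_le_js (by omega) (by omega)
  refine ⟨T, (copies_le (F := F') (fun i _ => hF _) (show 0 < k' from hk1)).2,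
    length_dj_cps k' F', ?_, ?_⟩
  · choose! As hAs using hsat
    obtain ⟨A', hA'⟩ := assemble (cps k' F') (fun j => if (js (M + 1) k).getD j 0 ≤ a then
      As ((js (M + 1) k).getD j 0) else [])
    refine ⟨A', ?_⟩
    have h1 : unsat (dj (cps k' F')) A' ≤ T * ∑ i ∈ Finset.range k, (M + 1) ^ (k - i) *
        (if i ≤ a then 0 else 1) := by
      rw [hA', sum_cps]
      have h2 : ∀ j ∈ Finset.range k', tot k' F' / (F' j).length * unsat (F' j)
          (if (js (M + 1) k).getD j 0 ≤ a then As ((js (M + 1) k).getD j 0) else []) ≤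
          T * (if (js (M + 1) k).getD j 0 ≤ a then 0 else 1) := by
        intro j _
        split_ifs with h3
        · have : unsat (F' j) (As ((js (M + 1) k).getD j 0)) = 0 := hAs _ h3
          rw [this]
          simp
        · rw [mul_one]
          have h4 : unsat (F' j) [] ≤ (F' j).length := by
            have := unsat_add (F' j) []
            omega
          exact (Nat.mul_le_mul_left _ h4).trans (Nat.div_mul_le_self _ _)
      refine (Finset.sum_le_sum h2).trans ?_
      rw [← Finset.mul_sum, sum_js (M + 1) k (fun i => if i ≤ a then 0 else 1)]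
    have h2 := geom M a k ha
    calc M * unsat (dj (cps k' F')) A' ≤ M * (T * ∑ i ∈ Finset.range k, (M + 1) ^ (k - i) *
        (if i ≤ a then 0 else 1)) := Nat.mul_le_mul_left _ h1
      _ = T * (M * ∑ i ∈ Finset.range k, (M + 1) ^ (k - i) * (if i ≤ a then 0 else 1)) := by ring
      _ ≤ T * (M + 1) ^ (k - a) := Nat.mul_le_mul_left _ (by omega)
  · intro A hA
    have h4 : ((cps k' F').zipIdx.map fun bj => if (js (M + 1) k).getD bj.1.1 0 = a then
        (F a).length else 0).sum ≤ K * unsat (dj (cps k' F')) A := by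
      rw [unsat_dj, ← List.sum_map_mul_left]
      refine List.sum_le_sum ?_
      intro bj hbj
      split_ifs with h
      · exact hA bj hbj h
      · exact Nat.zero_le _
    have h5 : ((cps k' F').zipIdx.map fun bj => if (js (M + 1) k).getD bj.1.1 0 = a then
        (F a).length else 0) = (cps k' F').map fun b => if (js (M + 1) k).getD b.1 0 = a then
          (F a).length else 0 := by
      conv_rhs => rw [← List.zipIdx_map_fst 0 (cps k' F'), List.map_map]
      rfl
    rw [h5, sum_cps] at h4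
    have h6 : ∑ j ∈ Finset.range k', T * (if (js (M + 1) k).getD j 0 = a then 1 else 0) ≤
        2 * ∑ i ∈ Finset.range k', tot k' F' / (F' i).length *
          (if (js (M + 1) k).getD i 0 = a then (F a).length else 0) := by
      rw [Finset.mul_sum]
      refine Finset.sum_le_sum fun j hj => ?_
      split_ifs with h
      · have h7 := (copies_le (F := F') (fun i _ => hF _) (Finset.mem_range.1 hj)).1
        have h8 : F' j = F a := by rw [hF']; simp only; rw [h]
        rw [h8] at h7 ⊢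
        rw [mul_one]
        exact h7
      · simp
    have h7 : ∑ j ∈ Finset.range k', T * (if (js (M + 1) k).getD j 0 = a then 1 else 0) =
        T * (M + 1) ^ (k - a) := by
      rw [← Finset.mul_sum, sum_js (M + 1) k (fun i => if i = a then 1 else 0),
        Finset.sum_eq_single a]
      · rw [if_pos rfl, mul_one]
      · intro i _ hi
        rw [if_neg hi, mul_zero]
      · intro h
        exact absurd (Finset.mem_range.2 ha) h
    rw [h7] at h6
    exact h6.trans (Nat.mul_le_mul_left 2 h4)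

/-- the numerical contradiction -/
theorem numeric {K c1 c2 c3 k' M T X U u len N0 : ℕ} {v v1 : ℝ}
    (hM : M = 8 * K * c1 * c2 + 1) (hT : 1 ≤ T) (hX : 1 ≤ X) (hK : 1 ≤ K)
    (hlen : len ≤ k' * T) (hN0 : N0 ≤ c3 * len) (hU : M * U ≤ T * X)
    (hu : T * X ≤ 2 * (K * u)) (h1 : v1 ≤ ((N0 + c1 * U : ℕ) : ℝ))
    (h2 : v ≤ (1 + 1 / (8 * K * (c2 + 1) * (c3 + 1) * (k' + 1) : ℝ)) * v1)
    (h3 : (u : ℝ) ≤ c2 * (v - N0)) : False := by
  set δ : ℝ := 1 / (8 * K * (c2 + 1) * (c3 + 1) * (k' + 1) : ℝ) with hδ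
  have hK' : (1 : ℝ) ≤ K := by exact_mod_cast hK
  have hc2 : (0 : ℝ) ≤ c2 := Nat.cast_nonneg _
  have hc1 : (0 : ℝ) ≤ c1 := Nat.cast_nonneg _
  have hc3 : (0 : ℝ) ≤ c3 := Nat.cast_nonneg _
  have hkk : (0 : ℝ) ≤ k' := Nat.cast_nonneg _
  have hU0 : (0 : ℝ) ≤ U := Nat.cast_nonneg _
  have hT' : (1 : ℝ) ≤ T := by exact_mod_cast hT
  have hX' : (1 : ℝ) ≤ X := by exact_mod_cast hX
  have hN0' : (0 : ℝ) ≤ N0 := Nat.cast_nonneg _
  have hden : (0 : ℝ) < 8 * K * (c2 + 1) * (c3 + 1) * (k' + 1) := by positivity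
  have hδ0 : 0 < δ := by rw [hδ]; positivity
  have hδ1 : δ ≤ 1 := by
    rw [hδ, div_le_one hden]
    have e1 : (1 : ℝ) ≤ 8 * K := by linarith
    have e2 : (1 : ℝ) ≤ c2 + 1 := by linarith
    have e3 : (1 : ℝ) ≤ c3 + 1 := by linarith
    have e4 : (1 : ℝ) ≤ k' + 1 := by linarith
    exact one_le_mul_of_one_le_of_one_le (one_le_mul_of_one_le_of_one_le
      (one_le_mul_of_one_le_of_one_le e1 e2) e3) e4
  have hδ2 : 8 * K * c2 * c3 * k' * δ ≤ 1 := by
    rw [hδ, mul_one_div, div_le_one hden]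
    have e2 : (c2 : ℝ) ≤ c2 + 1 := by linarith
    have e3 : (c3 : ℝ) ≤ c3 + 1 := by linarith
    have e4 : (k' : ℝ) ≤ k' + 1 := by linarith
    have e1 : (0 : ℝ) ≤ 8 * K := by linarith
    gcongr
  have hN : (N0 : ℝ) ≤ c3 * (k' * T) := by
    have : N0 ≤ c3 * (k' * T) := hN0.trans (Nat.mul_le_mul_left _ hlen)
    exact_mod_cast this
  have hU' : (8 * K * c1 * c2 + 1 : ℝ) * U ≤ T * X := by
    rw [hM] at hU
    exact_mod_cast hU
  have hu' : (T : ℝ) * X ≤ 2 * (K * u) := by exact_mod_cast hu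
  have h1' : v1 ≤ N0 + c1 * U := by
    have := h1
    push_cast at this
    exact this
  have h4 : v ≤ (1 + δ) * (N0 + c1 * U) :=
    h2.trans (mul_le_mul_of_nonneg_left h1' (by linarith))
  have h5 : v - N0 ≤ δ * (c3 * (k' * T)) + 2 * (c1 * U) := by
    have e1 : δ * N0 ≤ δ * (c3 * (k' * T)) := mul_le_mul_of_nonneg_left hN hδ0.le
    have e2 : δ * (c1 * U) ≤ 1 * (c1 * U) := mul_le_mul_of_nonneg_right hδ1 (by positivity)
    nlinarith
  have h6 : (u : ℝ) ≤ c2 * (δ * (c3 * (k' * T)) + 2 * (c1 * U)) :=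
    h3.trans (mul_le_mul_of_nonneg_left h5 hc2)
  have h7 : 2 * (K * (u : ℝ)) ≤ 2 * (K * (c2 * (δ * (c3 * (k' * T)) + 2 * (c1 * U)))) := by
    have := mul_le_mul_of_nonneg_left h6 (show (0 : ℝ) ≤ K by linarith)
    linarith
  have h8 : 2 * (K * (c2 * (δ * (c3 * (k' * T)) + 2 * (c1 * U)))) =
      (8 * K * c2 * c3 * k' * δ) * T / 4 + (8 * K * c1 * c2) * U / 2 := by ring
  have h9 : (8 * K * c2 * c3 * k' * δ) * T ≤ 1 * T := mul_le_mul_of_nonneg_right hδ2 (by linarith)
  have h10 : (8 * K * c1 * c2 : ℝ) * U ≤ T * X := by linarith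
  have h11 : (T : ℝ) * X ≤ T / 4 + T * X / 2 := by linarith
  have h12 : (T : ℝ) ≤ T * X := le_mul_of_one_le_right (by linarith) hX'
  linarith

theorem bt_mono {mx : Bool} {R vT v : ℚ} (hR : 1 ≤ R) (hT : 0 ≤ vT) (hv : 0 ≤ v) {i j : ℕ}
    (hij : i ≤ j) (h : bt mx (R ^ j) vT v) : bt mx (R ^ i) vT v := by
  have h1 : R ^ i ≤ R ^ j := pow_le_pow_right₀ hR hij
  unfold bt at *
  split_ifs at h ⊢ with hm
  · exact (mul_le_mul_of_nonneg_right h1 hT).trans h
  · exact (mul_le_mul_of_nonneg_right h1 hv).trans h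

/-- **A minimization problem with a gap reduction from MAX-3SAT-B is APX-hard under
PTAS-reductions.** -/
theorem t_PTAS : S_PTAS := by
  intro Q hQ F D N0 c1 c2 c3 hF hD hgap P hAPX
  obtain ⟨⟨y₀⟩, isv, fe, va, ap, q, m, c, hisv, hfe, hva, hap, hvalid, hP⟩ := hAPX
  have hDat : ∀ x, P.valid x → Dat P fe va ap q m c x := fun x hx =>
    ⟨(hP x hx).1, (hP x hx).2.1, (hP x hx).2.2⟩
  set mx := P.maximize with hmx
  obtain ⟨C, hC2, hcC⟩ : ∃ C : ℚ, 2 ≤ C ∧ c ≤ C := ⟨max 2 c, le_max_left _ _, le_max_right _ _⟩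
  have hK : 1 ≤ K0 := by unfold K0 H243R3.PCP.c1; norm_num
  have hk : ∀ r : ℚ, ∃ k : ℕ, 1 < r → 1 ≤ k ∧ C ≤ r ^ k := by
    intro r
    by_cases hr : 1 < r
    · obtain ⟨k, h⟩ := exists_k hC2 hr
      exact ⟨k, fun _ => ⟨h.1, h.2.1⟩⟩
    · exact ⟨0, fun h => absurd h hr⟩
  choose k hk using hk
  choose red ext hred using fun r : ℚ => exists_red hfe hva hap mx r q
  set M : ℕ := 8 * K0 * c1 * c2 + 1 with hM
  -- the repeated thresholds
  set k' : ℚ → ℕ := fun r => (js (M + 1) (k r)).length with hk'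
  set gi : ℚ → ℕ → ℕ := fun r j => (js (M + 1) (k r)).getD j 0 with hgi
  set Φ : ℚ → P.Inst → List Clause := fun r x =>
    dj (cps (k' r) fun j => red r (gi r j) (bits x)) with hΦ
  -- the best candidate, as a string
  set gs : ℚ → P.Inst → List ℕ → List Bool := fun r x A =>
    if isv (bits x) = [true] then best fe va ap mx (bits x) (cands (k' r)
      (fun j => red r (gi r j)) (fun j => ext r (gi r j)) (bits x) A)
    else bits y₀ with hgs
  have hcode : ∀ r x A, ∃ y : P.Sol, bits y = gs r x A := by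
    intro r x A
    simp only [hgs]
    split_ifs with h
    · obtain ⟨_, y, _, _, _, h2, _⟩ := (hDat x ((hvalid x).1 h)).best_spec mx
        (cands (k' r) (fun j => red r (gi r j)) (fun j => ext r (gi r j)) (bits x) A)
      exact ⟨y, h2⟩
    · exact ⟨y₀, rfl⟩
  choose g hg using hcode
  have hΦp : ∀ r : ℚ, Poly (fun x : P.Inst => Φ r x) := by
    intro r
    refine poly_dj (poly_cps (F := fun j x => red r (gi r j) (bits x)) fun i => ?_)
    exact (hred r (gi r i)).1.comp poly_bitsOf
  refine ⟨fun r => 1 + 1 / (8 * K0 * (c2 + 1) * (c3 + 1) * (k' r + 1)), fun r x => F (Φ r x),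
    fun r x y => g r x (D (Φ r x) y), ?_, ?_, ?_, ?_⟩
  · intro r _
    have : (0 : ℚ) < 1 / (8 * K0 * (c2 + 1) * (c3 + 1) * (k' r + 1)) := by
      have h1 : (0 : ℚ) < K0 := by exact_mod_cast hK
      positivity
    show (1 : ℚ) < 1 + _
    linarith
  · intro r _
    exact polyFn_of (hF.comp (hΦp r))
  · intro r _
    refine polyFn_of ?_
    have e1 : Poly (fun z : P.Inst × Q.Sol => (bits z.1 : List Bool)) :=
      poly_bitsOf.comp (Poly.fst Poly.id)
    have e2 : Poly (fun z : P.Inst × Q.Sol => D (Φ r z.1) z.2) :=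
      Poly.comp (g := fun z : List Clause × Q.Sol => D z.1 z.2)
        (f := fun z : P.Inst × Q.Sol => (Φ r z.1, z.2)) hD
        (Poly.pair ((hΦp r).comp (Poly.fst Poly.id)) (Poly.snd Poly.id))
    have e3 : Poly (fun z : P.Inst × Q.Sol => cands (k' r) (fun j => red r (gi r j))
        (fun j => ext r (gi r j)) (bits z.1) (D (Φ r z.1) z.2)) :=
      Poly.comp (g := fun z : List Bool × List ℕ => cands (k' r) (fun j => red r (gi r j))
          (fun j => ext r (gi r j)) z.1 z.2)
        (f := fun z : P.Inst × Q.Sol => ((bits z.1 : List Bool), D (Φ r z.1) z.2))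
        (poly_cands (fun i => (hred r (gi r i)).1) fun i => (hred r (gi r i)).2.1)
        (Poly.pair e1 e2)
    have e4 : Poly (fun z : P.Inst × Q.Sol => gs r z.1 (D (Φ r z.1) z.2)) :=
      Poly.ite (Poly.decide_eq ((poly_raw hisv).comp e1) (Pool.Agent.NPC.Poly.const _))
        (poly_best hfe hva hap mx e1 e3) (Pool.Agent.NPC.Poly.const _)
    exact poly_of_code e4 fun z => hg r z.1 (D (Φ r z.1) z.2)
  · intro r hr x hx
    have DD := hDat x hx
    obtain ⟨hk1, hk2⟩ := hk r hr
    have hval : ∀ i, red r i (bits x) ≠ [] ∧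
        ∀ v, (H243R3.TP.occ (red r i (bits x))).count v ≤ Bd := fun i =>
      ((hred r i).2.2 (bits x)).1
    have hk'1 : 1 ≤ k' r := one_le_js (by omega) hk1
    have hvΦ : (max3Sat Bd).valid (Φ r x) := by
      refine ⟨dj_ne hk'1 fun i _ => (hval _).1, occ_dj _ _ fun b hb v => ?_⟩
      rw [(mem_cps hb).2]
      exact (hval _).2 v
    obtain ⟨g1, g2, g3, g4⟩ := hgap (Φ r x) hvΦ
    refine ⟨g1, fun _ => ?_, ?_⟩
    · obtain ⟨y, hy, _⟩ := g3 []
      exact ⟨y, hy⟩
    · intro yQ hyQ
      obtain ⟨yT, y, b1, b2, b3, b4, b5, b6⟩ := DD.best_spec mx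
        (cands (k' r) (fun j => red r (gi r j)) (fun j => ext r (gi r j)) (bits x)
          (D (Φ r x) yQ))
      have hgy : g r x (D (Φ r x) yQ) = y := by
        apply bits_injective
        rw [hg, b4]
        simp only [hgs]
        rw [if_pos ((hvalid x).2 hx)]
      show P.feas x (g r x (D (Φ r x) yQ)) ∧ (_ → P.Approx _ x (g r x (D (Φ r x) yQ)))
      rw [hgy]
      refine ⟨b3, fun hA => ⟨b3, fun y' hy' => ?_⟩⟩
      have vT := DD.hm yT b2.1
      have vy := DD.hm y b3
      have vy' := DD.hm y' hy'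
      have hcy := b2.2 y' hy'
      -- the performance of the approximation algorithm
      have hC' : if mx = true then m x y' ≤ C * m x yT else m x yT ≤ C * m x y' := by
        rw [vT.2.2.1, vy'.2.2.1] at hcy
        by_cases hmm : mx = true
        · rw [if_pos hmm]
          rw [← hmx, if_pos hmm] at hcy
          have h1 : m x y' ≤ c * m x yT := by exact_mod_cast hcy
          exact h1.trans (mul_le_mul_of_nonneg_right hcC vT.2.1)
        · rw [if_neg hmm]
          rw [← hmx, if_neg hmm] at hcy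
          have h1 : m x yT ≤ c * m x y' := by exact_mod_cast hcy
          exact h1.trans (mul_le_mul_of_nonneg_right hcC vy'.2.1)
      -- the conclusion in rational numbers
      suffices hfin : if mx = true then m x y' ≤ r * m x y else m x y ≤ r * m x y' by
        rw [vy.2.2.1, vy'.2.2.1, ← hmx]
        split_ifs at hfin ⊢ with hmm
        · exact_mod_cast hfin
        · exact_mod_cast hfin
      refine final_ineq hr.le hk2 vT.2.1 vy.2.1 vy'.2.1 b5 hC' ?_
      intro i₀ hi₀ hbt₀
      -- the largest threshold passed by `y'`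
      obtain ⟨a, hak, hia, hbta, hmax⟩ : ∃ a, a < k r ∧ i₀ ≤ a ∧
          bt mx (r ^ (a + 1)) (m x yT) (m x y') ∧
          ∀ j, a < j → j < k r → ¬ bt mx (r ^ (j + 1)) (m x yT) (m x y') := by
        classical
        obtain ⟨S, hS⟩ : ∃ S : Finset ℕ, ∀ j, j ∈ S ↔ j < k r ∧
            bt mx (r ^ (j + 1)) (m x yT) (m x y') :=
          ⟨(Finset.range (k r)).filter fun j => bt mx (r ^ (j + 1)) (m x yT) (m x y'), fun j => by
            rw [Finset.mem_filter, Finset.mem_range]⟩
        have hne : S.Nonempty := ⟨i₀, (hS i₀).2 ⟨hi₀, hbt₀⟩⟩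
        have h1 := (hS _).1 (S.max'_mem hne)
        refine ⟨S.max' hne, h1.1, S.le_max' i₀ ((hS i₀).2 ⟨hi₀, hbt₀⟩), h1.2, ?_⟩
        intro j hj hjk hcon
        have := S.le_max' j ((hS j).2 ⟨hjk, hcon⟩)
        omega
      suffices hgoal : bt mx (r ^ (a + 1)) (m x yT) (m x y) from
        bt_mono hr.le vT.2.1 vy.2.1 (by omega) hgoal
      have hsat : ∀ i ≤ a, ∃ A, unsat (red r i (bits x)) A = 0 := by
        intro i hia'
        refine ((hred r i).2.2 (bits x)).2.1 ⟨bits y', vy'.1, ?_⟩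
        unfold verB
        rw [Bool.and_eq_true, DD.ok, b1, DD.vl b2.1, DD.vl hy',
          geM_iff (pow_nonneg (by linarith) _) vT.2.1 vy'.2.1]
        exact ⟨⟨y', hy', rfl⟩, bt_mono hr.le vT.2.1 vy'.2.1 (by omega) hbta⟩
      obtain ⟨T, hT1, hlen, ⟨A', hA'⟩, hbad⟩ := gap hak (F := fun i => red r i (bits x)) (M := M)
        (fun i => (hval i).1) hsat K0 rfl
      obtain ⟨y₁, hy₁, hv₁⟩ := g3 A'
      obtain ⟨g5, g6⟩ := g4 yQ hyQ
      -- some copy is well satisfied
      obtain ⟨bj, hbj, hbi, hlt⟩ : ∃ bj ∈ (cps (k' r) fun j => red r (gi r j) (bits x)).zipIdx,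
          gi r bj.1.1 = a ∧ K0 * unsat bj.1.2 (rs (cps (k' r) fun j =>
            red r (gi r j) (bits x)).length bj.2 (D (Φ r x) yQ)) < (red r a (bits x)).length := by
        by_contra hcon
        push Not at hcon
        have h1 := hbad (D (Φ r x) yQ) fun bj hbj hbi => hcon bj hbj hbi
        have h2 := hA.2 y₁ hy₁
        rw [hQ] at h2
        simp only [Bool.false_eq_true, if_false] at h2
        refine numeric (K := K0) (c1 := c1) (c2 := c2) (c3 := c3) (k' := k' r) (M := M) (T := T)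
          (X := (M + 1) ^ (k r - a)) (U := unsat (Φ r x) A') (u := unsat (Φ r x) (D (Φ r x) yQ))
          (len := (Φ r x).length) (N0 := N0 (Φ r x)) hM hT1 (Nat.one_le_pow _ _ (by omega)) hK
          hlen g2 hA' h1 hv₁ (v := Q.val (F (Φ r x)) yQ) ?_ g6
        refine h2.trans (le_of_eq ?_)
        push_cast
        rfl
      -- the candidate of this copy
      have hb2 : bj.1.2 = red r a (bits x) := by
        obtain ⟨b, j⟩ := bj
        have := (mem_cps (List.mem_of_getElem? (zipIdx_lt hbj).2)).2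
        rw [this]
        simp only at hbi
        rw [hbi]
      rw [hb2] at hlt
      have hver := ((hred r a).2.2 (bits x)).2.2 _ hlt
      have hmem := mem_cands (red := fun j => red r (gi r j)) (ext := fun j => ext r (gi r j))
        (A := D (Φ r x) yQ) hbj
      rw [hbi] at hmem
      unfold verB at hver
      rw [Bool.and_eq_true, DD.ok] at hver
      obtain ⟨⟨y'', hy'', he⟩, hge⟩ := hver
      rw [← he, b1, DD.vl b2.1, DD.vl hy'',
        geM_iff (pow_nonneg (by linarith) _) vT.2.1 (DD.hm y'' hy'').2.1] at hge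
      exact bt_trans (pow_nonneg (by linarith) _) hge (b6 _ hmem y'' hy'' he)

end Pool.Agent.W253.CPP
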